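import Pool.Agent.XD.Comb.P

/-!
# XD, module C2: the growth of the sets `UU`

`UU N m d j`: the `v ∈ N` of degree `j` in the variables `< m - 1` with `v y_{m-1}^{d-j} ∉ N`.
`UU_dn`, `UU_up`: if `w ∈ N` and `a ∈ w`, `a < b < m` then the move `a → b` stays in `N` (`Stair.up`);
use the contrapositive.  `growth`: the elements `l ::ₘ v`, `v ∈ UU N m d j` in the variables `≤ l`,
`τ (j + 1) ≤ l < m - 1`, are in `UU N m d (j + 1)` (`push`, `UU_up`), pairwise different, and
`density` with `i = m - 1`, `i' = l + 1` bounds their number;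
`∑_{τ (j + 1) ≤ l < m - 1} f (l + 1) j = f (m - 1) (j + 1) - f (τ (j + 1)) (j + 1) ≥ (1 - ε) f (m - 1) (j + 1)`.
-/

set_option autoImplicit false

namespace Pool.Agent.XD

open Finset

/-- The `v ∈ N` of degree `j` in the variables `< m - 1` with `v y_{m-1}^{d-j} ∉ N`. -/
def UU (N : Finset (Multiset ℕ)) (m d j : ℕ) : Finset (Multiset ℕ) :=
  (lay N (m - 1) j).filter fun v => v + Multiset.replicate (d - j) (m - 1) ∉ N

variable {m d : ℕ} {N : Finset (Multiset ℕ)} {f : ℕ → ℕ → ℕ} {τ : ℕ → ℕ} {ε : ℝ}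

theorem mem_UU {j : ℕ} {v : Multiset ℕ} : v ∈ UU N m d j ↔
    (v ∈ N ∧ Multiset.card v = j ∧ ∀ x ∈ v, x < m - 1) ∧
      v + Multiset.replicate (d - j) (m - 1) ∉ N := by
  unfold UU
  rw [mem_filter, mem_lay]

theorem UU_dn (hN : Stair m d N f) {j : ℕ} (hj : j < d) : Dn N (UU N m d j) := by
  intro v hv b hb a hab hN'
  rw [mem_UU] at hv ⊢
  obtain ⟨⟨hv1, hv2, hv3⟩, hv4⟩ := hv
  have hbm := hv3 b hb
  have hbe : b ::ₘ v.erase b = v := Multiset.cons_erase hb
  refine ⟨⟨hN', ?_, ?_⟩, fun h => hv4 ?_⟩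
  · rw [Multiset.card_cons, ← hv2]
    conv_rhs => rw [← hbe]
    rw [Multiset.card_cons]
  · intro x hx
    rcases Multiset.mem_cons.1 hx with rfl | hx
    · omega
    · exact hv3 x (Multiset.mem_of_mem_erase hx)
  · have h1 := hN.up _ h a (by simp) b hab (by omega)
    rw [Multiset.cons_add, Multiset.erase_cons_head, ← Multiset.cons_add, hbe] at h1
    exact h1

theorem UU_up (hN : Stair m d N f) {j i : ℕ} (hj : j + 1 < d) {v : Multiset ℕ}
    (hv : v ∈ UU N m d j) (hi : i < m - 1) (hiv : i ::ₘ v ∈ N) : i ::ₘ v ∈ UU N m d (j + 1) := by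
  rw [mem_UU] at hv ⊢
  obtain ⟨⟨hv1, hv2, hv3⟩, hv4⟩ := hv
  refine ⟨⟨hiv, ?_, ?_⟩, fun h => hv4 ?_⟩
  · rw [Multiset.card_cons, hv2]
  · intro x hx
    rcases Multiset.mem_cons.1 hx with rfl | hx
    · exact hi
    · exact hv3 x hx
  · have h1 := hN.up _ h i (by simp) (m - 1) hi (by omega)
    rw [Multiset.cons_add, Multiset.erase_cons_head] at h1
    have h2 : d - j = (d - (j + 1)) + 1 := by omega
    rw [h2, Multiset.replicate_succ, Multiset.add_cons]
    exact h1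

private theorem sum_recu (hT : Thr m d f τ ε) {j : ℕ} (hj : j + 1 < d) (b : ℕ)
    (hb : τ (j + 1) ≤ b) (hbm : b ≤ m) :
    f b (j + 1) = f (τ (j + 1)) (j + 1) + ∑ l ∈ Ico (τ (j + 1)) b, f (l + 1) j := by
  induction b, hb using Nat.le_induction with
  | base => simp
  | succ b hb ih =>
    rw [sum_Ico_succ_top hb, ← add_assoc, ← ih (by omega), hT.recu j hj b hb (by omega)]

theorem growth (hN : Stair m d N f) (hT : Thr m d f τ ε) (hε : 0 ≤ ε) (hm : 1 ≤ m) {j : ℕ}
    (hj : j + 1 < d) :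
    (1 - ((j : ℝ) + 1) * ε) * ((UU N m d j).card : ℝ) * (f (m - 1) (j + 1) : ℝ) ≤
      ((UU N m d (j + 1)).card : ℝ) * (f (m - 1) j : ℝ) := by
  set U := UU N m d j with hU
  have hR : (0 : ℝ) ≤ ((UU N m d (j + 1)).card : ℝ) * (f (m - 1) j : ℝ) := by positivity
  by_cases hneg : 1 - (j : ℝ) * ε < 0
  · have h1 : (1 - ((j : ℝ) + 1) * ε) ≤ 0 := by nlinarith
    have h2 : (1 - ((j : ℝ) + 1) * ε) * (U.card : ℝ) * (f (m - 1) (j + 1) : ℝ) ≤ 0 := by
      have h3 : (0 : ℝ) ≤ (U.card : ℝ) * (f (m - 1) (j + 1) : ℝ) := by positivity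
      rw [mul_assoc]
      exact mul_nonpos_of_nonpos_of_nonneg h1 h3
    exact h2.trans hR
  · push Not at hneg
    have hτ : τ (j + 1) ≤ m - 1 := by
      have := hT.lt (j + 1) (by omega) hj
      omega
    set D : ℕ → Finset (Multiset ℕ) := fun l => U.filter fun v => ∀ x ∈ v, x < l + 1 with hD
    have hUl : U ⊆ lay N (m - 1) j := filter_subset _ _
    -- the elements `l ::ₘ v`
    have hcard : ∑ l ∈ Ico (τ (j + 1)) (m - 1), (D l).card ≤ (UU N m d (j + 1)).card := by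
      rw [← card_sigma]
      refine card_le_card_of_injOn (fun p : (_ : ℕ) × Multiset ℕ => p.1 ::ₘ p.2) ?_ ?_
      · rintro ⟨l, v⟩ hp
        rw [mem_coe, mem_sigma, mem_Ico] at hp
        obtain ⟨⟨h1, h2⟩, h3⟩ := hp
        have h3' : v ∈ U ∧ ∀ x ∈ v, x < l + 1 := by
          have h4 : v ∈ U.filter fun v => ∀ x ∈ v, x < l + 1 := h3
          exact mem_filter.1 h4
        have h4 := mem_lay.1 (hUl h3'.1)
        rw [mem_coe]
        refine UU_up hN hj h3'.1 h2 (push hN hT hj h1 (by omega) ?_)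
        rw [mem_lay]
        exact ⟨h4.1, h4.2.1, h3'.2⟩
      · rintro ⟨l, v⟩ hp ⟨l', v'⟩ hp' heq
        rw [mem_coe, mem_sigma] at hp hp'
        have h3 : ∀ x ∈ v, x < l + 1 := by
          have h4 : v ∈ U.filter fun v => ∀ x ∈ v, x < l + 1 := hp.2
          exact (mem_filter.1 h4).2
        have h3' : ∀ x ∈ v', x < l' + 1 := by
          have h4 : v' ∈ U.filter fun v => ∀ x ∈ v, x < l' + 1 := hp'.2
          exact (mem_filter.1 h4).2
        have heq' : l ::ₘ v = l' ::ₘ v' := heq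
        have h5 : l ≤ l' := by
          have : l ∈ l' ::ₘ v' := by
            rw [← heq']
            exact Multiset.mem_cons_self _ _
          rcases Multiset.mem_cons.1 this with h | h
          · exact h.le
          · have := h3' l h
            omega
        have h6 : l' ≤ l := by
          have : l' ∈ l ::ₘ v := by
            rw [heq']
            exact Multiset.mem_cons_self _ _
          rcases Multiset.mem_cons.1 this with h | h
          · exact h.le
          · have := h3 l' h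
            omega
        obtain rfl : l = l' := le_antisymm h5 h6
        rw [Multiset.cons_inj_right] at heq'
        rw [heq']
    have hdens : ∀ l ∈ Ico (τ (j + 1)) (m - 1),
        (1 - j * ε) * (U.card : ℝ) * (f (l + 1) j : ℝ) ≤ ((D l).card : ℝ) * (f (m - 1) j : ℝ) := by
      intro l hl
      rw [mem_Ico] at hl
      exact density hN hT hε j hj (m - 1) (l + 1) (by omega) (by omega) (by omega) U hUl
        (UU_dn hN (by omega))
    have hsum := sum_le_sum hdens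
    rw [← mul_sum, ← sum_mul] at hsum
    have h1 : ∑ l ∈ Ico (τ (j + 1)) (m - 1), (f (l + 1) j : ℝ) =
        (f (m - 1) (j + 1) : ℝ) - (f (τ (j + 1)) (j + 1) : ℝ) := by
      have h2 := sum_recu hT hj (m - 1) hτ (by omega)
      have h3 : (f (m - 1) (j + 1) : ℝ) = (f (τ (j + 1)) (j + 1) : ℝ) +
          ∑ l ∈ Ico (τ (j + 1)) (m - 1), (f (l + 1) j : ℝ) := by exact_mod_cast h2
      linarith
    have h2 : (f (τ (j + 1)) (j + 1) : ℝ) ≤ ε * f (m - 1) (j + 1) := hT.last (j + 1) (by omega) hj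
    have h3 : (1 - ε) * (f (m - 1) (j + 1) : ℝ) ≤ ∑ l ∈ Ico (τ (j + 1)) (m - 1), (f (l + 1) j : ℝ) := by
      rw [h1]
      linarith
    have h4 : ∑ l ∈ Ico (τ (j + 1)) (m - 1), ((D l).card : ℝ) ≤ ((UU N m d (j + 1)).card : ℝ) := by
      exact_mod_cast hcard
    have h5 : (0 : ℝ) ≤ (f (m - 1) j : ℝ) := by positivity
    have h6 : (0 : ℝ) ≤ (1 - j * ε) * (U.card : ℝ) := mul_nonneg hneg (by positivity)
    calc (1 - ((j : ℝ) + 1) * ε) * (U.card : ℝ) * (f (m - 1) (j + 1) : ℝ)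
        ≤ ((1 - j * ε) * (U.card : ℝ)) * ((1 - ε) * (f (m - 1) (j + 1) : ℝ)) := by
          have h7 : (1 - ((j : ℝ) + 1) * ε) ≤ (1 - j * ε) * (1 - ε) := by
            have : (0 : ℝ) ≤ (j : ℝ) * ε * ε := by positivity
            nlinarith
          have h8 : (0 : ℝ) ≤ (U.card : ℝ) * (f (m - 1) (j + 1) : ℝ) := by positivity
          calc (1 - ((j : ℝ) + 1) * ε) * (U.card : ℝ) * (f (m - 1) (j + 1) : ℝ)
              = (1 - ((j : ℝ) + 1) * ε) * ((U.card : ℝ) * (f (m - 1) (j + 1) : ℝ)) := by ring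
            _ ≤ ((1 - j * ε) * (1 - ε)) * ((U.card : ℝ) * (f (m - 1) (j + 1) : ℝ)) :=
                mul_le_mul_of_nonneg_right h7 h8
            _ = ((1 - j * ε) * (U.card : ℝ)) * ((1 - ε) * (f (m - 1) (j + 1) : ℝ)) := by ring
      _ ≤ ((1 - j * ε) * (U.card : ℝ)) * ∑ l ∈ Ico (τ (j + 1)) (m - 1), (f (l + 1) j : ℝ) :=
          mul_le_mul_of_nonneg_left h3 h6
      _ ≤ (∑ l ∈ Ico (τ (j + 1)) (m - 1), ((D l).card : ℝ)) * (f (m - 1) j : ℝ) := hsum
      _ ≤ ((UU N m d (j + 1)).card : ℝ) * (f (m - 1) j : ℝ) := mul_le_mul_of_nonneg_right h4 h5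

end Pool.Agent.XD
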